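import Pool.Agent.Y957.MC.Fin7

set_option autoImplicit false

/-!
# Weighted multiple averages at almost every time of a flow: discrete and continuous averages

Let `τ_1, ..., τ_m` be measurable measure preserving flows on a probability space and `f_j` in `L^∞`; the case of
the question is `m = 3` and `τ_j(t) = τ(j t)` for one flow `τ`. Let `B` be a Besicovitch almost periodic sequence
with mean `b` (for instance `B = 1`, `b = 1`, or `B(n) = e(α n)` with `α` not an integer, `b = 0`, or the indicator
function of an arithmetic progression or of the squarefree numbers). For almost every `a > 0` and almost every `x`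
`(1/N) ∑_{n ≤ N} B(n) ∏ f_j(τ_j(a n) x) - b (1/(a N)) ∫_0^(a N) ∏ f_j(τ_j(v) x) dv → 0`.
So for almost every `a` the averages of the question for `T = τ(a)` converge almost everywhere if and only if the
continuous averages do, with the same limits, the same holds along arithmetic progressions of `n` and other weights
with `b ≠ 0`, and the averages twisted by `e(α n)` tend to zero.

Proof (`Pool.Agent.Y957.MC`, theorems `mul_all`, `bes_conv`): for `f_j` smooth along the flows `F(v) = ∏ f_j(τ_j(v) x)`
is a bounded Lipschitz function. For characters `B` the function `B - b` is orthogonal to `n^(it)`, with a saving of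
a power of `N` uniformly for `|t| ≤ N^Q` (van der Corput), and Parseval in the multiplicative Fourier transform of
`F(a n)` in the variable `log a` gives a mean square bound which saves a power of `N`; the continuous averages come
from the weights `q 1_{q | n} - 1` and letting `q` tend to infinity. The errors in the approximation of the `f_j` are
controlled, uniformly in `n`, with second moments of averages of nonnegative functions at the times `a n`.
-/

namespace Pool.Agent.Results.MP_9721b5_an.AlmostEveryTime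

open MeasureTheory Filter Finset

universe u

/-- a measurable measure preserving flow -/
structure IsFlow {X : Type u} [MeasurableSpace X] (μ : Measure X) (τ : ℝ → X → X) : Prop where
  meas : Measurable (fun p : ℝ × X => τ p.1 p.2)
  zero : ∀ x, τ 0 x = x
  add : ∀ s t x, τ (s + t) x = τ s (τ t x)
  mp : ∀ t, MeasurePreserving (τ t) μ μ

/-- Besicovitch almost periodic sequences: limits of trigonometric polynomials in the mean -/
def AlmostPeriodic (B : ℕ → ℂ) : Prop := ∀ ε : ℝ, 0 < ε → ∃ (s : Finset ℝ) (c : ℝ → ℂ), ∀ᶠ N : ℕ in atTop,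
  (1 / (N : ℝ)) * ∑ n ∈ Icc 1 N,
    ‖B n - ∑ α ∈ s, c α * Complex.exp (((2 * Real.pi * α * n : ℝ) : ℂ) * Complex.I)‖ ≤ ε

theorem result (X : Type u) [MeasurableSpace X] (μ : Measure X) [IsProbabilityMeasure μ] (m : ℕ)
    (τ : Fin m → ℝ → X → X) (hτ : ∀ j, IsFlow μ (τ j)) (f : Fin m → X → ℂ)
    (hf : ∀ j, AEStronglyMeasurable (f j) μ) (hfb : ∀ j, ∃ C : ℝ, ∀ᵐ x ∂μ, ‖f j x‖ ≤ C)
    (B : ℕ → ℂ) (b : ℂ) (hB : AlmostPeriodic B)
    (hb : Tendsto (fun N : ℕ => (1 / (N : ℂ)) * ∑ n ∈ Icc 1 N, B n) atTop (nhds b)) :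
    ∀ᵐ a : ℝ, 0 < a → ∀ᵐ x ∂μ,
      Tendsto (fun N : ℕ => (1 / (N : ℂ)) * ∑ n ∈ Icc 1 N, B n * ∏ j, f j (τ j (a * n) x) -
        b * ((1 / ((a * N : ℝ) : ℂ)) * ∫ v in (0 : ℝ)..(a * N), ∏ j, f j (τ j v x))) atTop (nhds 0) ∧
      (b ≠ 0 → ∀ L : ℂ,
        (Tendsto (fun N : ℕ => (1 / (N : ℂ)) * ∑ n ∈ Icc 1 N, B n * ∏ j, f j (τ j (a * n) x)) atTop
          (nhds (b * L)) ↔
        Tendsto (fun V : ℝ => (1 / (V : ℂ)) * ∫ v in (0 : ℝ)..V, ∏ j, f j (τ j v x)) atTop (nhds L))) :=
  Pool.Agent.Y957.MC.bes_conv hB hb (fun j => ⟨(hτ j).meas, (hτ j).zero, (hτ j).add, (hτ j).mp⟩) hf hfb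

end Pool.Agent.Results.MP_9721b5_an.AlmostEveryTime
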