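import Pool.Agent.Y311.DN.Comm

/-!
# Pointwise convergence in density of the averages along arithmetic progressions

For every invertible measure preserving map `T`, every number of bounded functions and arbitrary
integer exponents (for example `n, 2n, 3n`) the averages converge at almost every point `x` off a
subset of small density of the orbit of `x`, uniformly in all sufficiently large `N` and all
sufficiently long windows `x, Tx, …, T^L x`; the windows may be much shorter than `N`.
-/

set_option autoImplicit false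

open Filter Topology MeasureTheory
open scoped ENNReal

namespace Pool.Agent.Results.MP_9721b5_an.DensityProgressions

/-- The averages over `1 ≤ n ≤ N` of `∏_j f_j (T^(v_j n + b_j) x)`. -/
noncomputable def avg {k : ℕ} {X : Type*} (T : Equiv.Perm X) (v b : Fin k → ℤ)
    (f : Fin k → X → ℂ) (N : ℕ) (x : X) : ℂ :=
  (N : ℂ)⁻¹ * ∑ n ∈ Finset.Icc 1 N, ∏ j, f j ((T ^ (v j * n + b j)) x)

/-- Let `T` be an invertible measure preserving map of a probability space, `f_1, …, f_k ∈ L^∞` and
`v_j, b_j` integers (for example `k = 3`, `v = (1, 2, 3)`, `b = 0`). There is a bounded measurable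
`F`, the limit of the averages `A_N` in `L^2`, such that for almost every `x` and all `ε > 0` there
is `K` such that for all `N ≥ K` and all `L ≥ K` one has `|A_N (T^c x) - F (T^c x)| < ε` for all but
at most `ε L` of the `c ∈ {1, …, L}`. -/
theorem result {X : Type*} [MeasurableSpace X] (μ : Measure X) [IsProbabilityMeasure μ]
    (T : Equiv.Perm X) (hTm : Measurable T.symm) (hT : MeasurePreserving T μ μ) (k : ℕ)
    (v b : Fin k → ℤ) (f : Fin k → X → ℂ) (hf : ∀ j, MemLp (f j) ∞ μ) :
    ∃ (F : X → ℂ) (C : ℝ), Measurable F ∧ (∀ x, ‖F x‖ ≤ C) ∧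
      Tendsto (fun N : ℕ => ∫ x, ‖avg T v b f N x - F x‖ ^ 2 ∂μ) atTop (𝓝 0) ∧
      ∀ᵐ x ∂μ, ∀ ε : ℝ, 0 < ε → ∃ K : ℕ, ∀ N L : ℕ, K ≤ N → K ≤ L →
        (((Finset.Icc 1 L).filter fun c =>
          ε ≤ ‖avg T v b f N ((T ^ c) x) - F ((T ^ c) x)‖).card : ℝ) ≤ ε * L :=
  Pool.Agent.Y311.DN.pow_dens hTm hT v b hf fun _ _ => rfl

end Pool.Agent.Results.MP_9721b5_an.DensityProgressions
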